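import Pool.Agent.H207.BT.Stm4

/-!
# Project BT: the concrete root lemma from the abstract one
-/

set_option autoImplicit false

open Topology Filter Metric Set

namespace Pool.Agent.H740.BT207

open Pool.Agent.H790R3.RB Pool.Agent.H211.HY Pool.Agent.H207.BT

theorem norm_cr_le (p : ℂ × ℂ) (c : ℂ) (hp : p ≠ 0) :
    ‖cr p (c, 1)‖ ≤ cho p (c, 1) * (Real.sqrt (2 * (‖c‖ ^ 2 + 1)) * ‖dn (tau p) p‖) := by
  have h1 : ‖p.1‖ ≤ ‖dn (tau p) p‖ ∧ ‖p.2‖ ≤ ‖dn (tau p) p‖ := by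
    unfold dn tau
    by_cases h : ‖p.1‖ ≤ ‖p.2‖
    · simp [h]
    · simp only [h, decide_false, Bool.false_eq_true, if_false]
      exact ⟨le_rfl, (not_le.1 h).le⟩
  have h2 : N2 p ≤ 2 * ‖dn (tau p) p‖ ^ 2 := by
    unfold N2
    have a1 := pow_le_pow_left₀ (norm_nonneg _) h1.1 2
    have a2 := pow_le_pow_left₀ (norm_nonneg _) h1.2 2
    linarith
  have h3 : N2 ((c, 1) : ℂ × ℂ) = ‖c‖ ^ 2 + 1 := by
    unfold N2
    simp
  have h4 : 0 < N2 p := by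
    unfold N2
    rcases eq_or_ne p.1 0 with h | h
    · have h5 : p.2 ≠ 0 := fun h6 => hp (Prod.ext h h6)
      have := norm_pos_iff.2 h5
      positivity
    · have := norm_pos_iff.2 h
      positivity
  have h5 : (0 : ℝ) < ‖c‖ ^ 2 + 1 := by positivity
  have h6 : 0 < Real.sqrt (N2 p * N2 ((c, 1) : ℂ × ℂ)) := by
    rw [h3]
    exact Real.sqrt_pos.2 (mul_pos h4 h5)
  have h7 : ‖cr p (c, 1)‖ = cho p (c, 1) * Real.sqrt (N2 p * N2 ((c, 1) : ℂ × ℂ)) := by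
    rw [cho, div_mul_cancel₀ _ h6.ne']
  have h8 : 0 ≤ cho p (c, 1) := by
    rw [cho]
    positivity
  rw [h7]
  apply mul_le_mul_of_nonneg_left _ h8
  rw [h3]
  have h9 : Real.sqrt (2 * (‖c‖ ^ 2 + 1)) * ‖dn (tau p) p‖ =
      Real.sqrt (2 * (‖c‖ ^ 2 + 1) * ‖dn (tau p) p‖ ^ 2) := by
    rw [Real.sqrt_mul (show (0 : ℝ) ≤ 2 * (‖c‖ ^ 2 + 1) by positivity) (‖dn (tau p) p‖ ^ 2),
      Real.sqrt_sq (norm_nonneg _)]
  rw [h9]
  apply Real.sqrt_le_sqrt
  nlinarith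

theorem geo (c : ℂ) (τ : Bool) : ∃ η > (0 : ℝ), ∃ C ≥ (1 : ℝ), ∀ p : ℂ × ℂ, p ≠ 0 → tau p = τ →
    cho p (c, 1) ≤ η → dn τ (c, 1) ≠ 0 ∧ ‖zc p - lc τ (c, 1)‖ ≤ C * cho p (c, 1) := by
  obtain ⟨D, hD⟩ : ∃ D, D = Real.sqrt (2 * (‖c‖ ^ 2 + 1)) := ⟨_, rfl⟩
  have hD1 : 1 ≤ D := by
    rw [hD, Real.le_sqrt' one_pos]
    nlinarith [sq_nonneg ‖c‖]
  have hD0 : 0 < D := by linarith
  have key : ∀ p : ℂ × ℂ, p ≠ 0 → ‖cr p (c, 1)‖ ≤ cho p (c, 1) * (D * ‖dn (tau p) p‖) := by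
    intro p hp
    rw [hD]
    exact norm_cr_le p c hp
  cases τ with
  | true =>
    refine ⟨1, one_pos, D, hD1, fun p hp hτ _ => ⟨by simp [dn], ?_⟩⟩
    have h1 := key p hp
    have h2 := dn_tau_ne hp
    rw [hτ] at h1 h2
    simp only [dn, if_true] at h1 h2
    have h3 : cr p (c, 1) = p.2 * (zc p - lc true (c, 1)) := by
      unfold cr zc
      rw [hτ]
      simp only [lc, if_true]
      field_simp
    rw [h3, norm_mul] at h1
    have h4 : 0 < ‖p.2‖ := norm_pos_iff.2 h2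
    have h5 : ‖p.2‖ * ‖zc p - lc true (c, 1)‖ ≤ ‖p.2‖ * (D * cho p (c, 1)) := by
      calc ‖p.2‖ * ‖zc p - lc true (c, 1)‖ ≤ cho p (c, 1) * (D * ‖p.2‖) := h1
        _ = ‖p.2‖ * (D * cho p (c, 1)) := by ring
    exact le_of_mul_le_mul_left h5 h4
  | false =>
    have key2 : ∀ p : ℂ × ℂ, p ≠ 0 → tau p = false → ‖1 - zc p * c‖ ≤ D * cho p (c, 1) := by
      intro p hp hτ
      have h1 := key p hp
      have h2 := dn_tau_ne hp
      rw [hτ] at h1 h2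
      simp only [dn, Bool.false_eq_true, if_false] at h1 h2
      have h3 : cr p (c, 1) = p.1 * (1 - zc p * c) := by
        unfold cr zc
        rw [hτ]
        simp only [lc, Bool.false_eq_true, if_false]
        field_simp
      rw [h3, norm_mul] at h1
      have h4 : 0 < ‖p.1‖ := norm_pos_iff.2 h2
      have h5 : ‖p.1‖ * ‖1 - zc p * c‖ ≤ ‖p.1‖ * (D * cho p (c, 1)) := by
        calc ‖p.1‖ * ‖1 - zc p * c‖ ≤ cho p (c, 1) * (D * ‖p.1‖) := h1
          _ = ‖p.1‖ * (D * cho p (c, 1)) := by ring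
      exact le_of_mul_le_mul_left h5 h4
    by_cases hc : c = 0
    · refine ⟨1 / (2 * D), by positivity, 1, le_rfl, fun p hp hτ hη => ?_⟩
      exfalso
      have h1 := key2 p hp hτ
      rw [hc] at h1 hη
      rw [mul_zero, sub_zero, norm_one] at h1
      have h2 : D * cho p (0, 1) ≤ D * (1 / (2 * D)) := mul_le_mul_of_nonneg_left hη hD0.le
      have h3 : D * (1 / (2 * D)) = 1 / 2 := by field_simp
      linarith
    · have hc0 : 0 < ‖c‖ := norm_pos_iff.2 hc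
      refine ⟨1, one_pos, max 1 (D / ‖c‖), le_max_left _ _, fun p hp hτ _ =>
        ⟨by simp [dn, hc], ?_⟩⟩
      have h1 := key2 p hp hτ
      have h2 : zc p - lc false (c, 1) = -(1 - zc p * c) / c := by
        simp only [lc, Bool.false_eq_true, if_false]
        field_simp
        ring
      rw [h2, norm_div, norm_neg]
      have h0 : 0 ≤ cho p (c, 1) := by
        rw [cho]
        positivity
      calc ‖1 - zc p * c‖ / ‖c‖ ≤ D * cho p (c, 1) / ‖c‖ :=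
            div_le_div_of_nonneg_right h1 hc0.le
        _ = D / ‖c‖ * cho p (c, 1) := by ring
        _ ≤ max 1 (D / ‖c‖) * cho p (c, 1) :=
            mul_le_mul_of_nonneg_right (le_max_right _ _) h0

theorem exists_pos_le {ι : Type} [Finite ι] (f : ι → ℝ) (hf : ∀ i, 0 < f i) :
    ∃ η > (0 : ℝ), ∀ i, η ≤ f i := by
  obtain ⟨M, hM⟩ := Finite.bddAbove_range (fun i => 1 / f i)
  refine ⟨1 / max M 1, by positivity, fun i => ?_⟩
  have h1 : 1 / f i ≤ max M 1 := (hM (mem_range_self i)).trans (le_max_left _ _)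
  rw [div_le_iff₀ (hf i)] at h1
  rw [div_le_iff₀ (by positivity)]
  linarith

theorem exists_le {ι : Type} [Finite ι] (f : ι → ℝ) : ∃ B ≥ (1 : ℝ), ∀ i, f i ≤ B := by
  obtain ⟨M, hM⟩ := Finite.bddAbove_range f
  exact ⟨max M 1, le_max_right _ _, fun i => (hM (mem_range_self i)).trans (le_max_left _ _)⟩

theorem t_ROOTB (h1 : Pool.Agent.H207.BT.S_ROOTA) (h2 : Pool.Agent.H207.BT.S_RTC) :
    Pool.Agent.H207.BT.S_ROOT := by
  intro d k x₀ c₀ m X c ρ hd hND hw hFac hFami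
  have loc : ∀ i : Fin k × Bool, ∃ η > (0 : ℝ), ∃ B ≥ (1 : ℝ),
      ∀ (p : ℂ × ℂ) (w : (Fin k → ℂ) → ℂ) (y r K : ℝ), p ≠ 0 → tau p = i.2 →
        cho p (c₀ i.1, 1) ≤ η → 0 < y → y ≤ η →
        y ^ (m i.1 + 1) = ‖w 0 - cv x₀ X (c₀ i.1) (c i.1) 0‖ → 0 < r → 1 ≤ K →
        B * K * r ≤ y ^ (m i.1 + 1) →
        (∀ s ∈ ball (0 : Fin k → ℂ) r, ∀ s' ∈ ball (0 : Fin k → ℂ) r,
          ‖w s - w s'‖ ≤ K * ‖s - s'‖) →
        ∃ q : (Fin k → ℂ) → ℂ,
          ‖q 0 - zc p‖ ≤ B * (y + cho p (c₀ i.1, 1)) ∧ y ≤ B * ‖q 0 - zc p‖ ∧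
          (∀ s ∈ ball (0 : Fin k → ℂ) r, ∀ s' ∈ ball (0 : Fin k → ℂ) r,
            y ^ m i.1 * ‖q s - q s'‖ ≤ B * K * ‖s - s'‖) ∧
          ∀ s ∈ ball (0 : Fin k → ℂ) r, wr (X s) (iot (tau p) (q s)) ≠ 0 ∧
            cr (hF (X s) (iot (tau p) (q s))) (iot (tau (qo x₀ (c₀ i.1) 1)) (w s)) = 0 := by
    rintro ⟨l, τ⟩
    simp only
    obtain ⟨η₁, hη₁, C, hC, hgeo⟩ := geo (c₀ l) τ
    by_cases hdn : dn τ (c₀ l, 1) = 0
    · exact ⟨η₁, hη₁, 1, le_rfl, fun p w y r K hp hτ hcho => absurd hdn (hgeo p hp hτ hcho).1⟩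
    obtain ⟨ρ₂, hρ₂, -, h₁, hr1, hr2, hr3, hr4, hr5⟩ :=
      h2 d k x₀ c₀ m X c ρ hd hND hw hFac hFami l τ hdn
    have hc0 : c l 0 = c₀ l := hFami.c0 l
    obtain ⟨η₂, hη₂, -, B₂, hB₂, hA⟩ := h1 k (m l) ρ₂
      (fun s u => GG (X s) τ (tau (qo x₀ (c₀ l) 1)) u) (fun s => lc τ (c l s, 1)) h₁
      (hFac.pos l) hρ₂ hr1 (by simpa only [hc0] using hr2) (by simpa only [hc0] using hr3)
      (by simpa only [hc0] using hr4)
      (fun s hs u hu => ((hr5 s hs).2.2 u (by simpa only [hc0] using hu)).1)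
    simp only [hc0] at hA
    have h00 : GG (X 0) τ (tau (qo x₀ (c₀ l) 1)) (lc τ (c₀ l, 1)) =
        cv x₀ X (c₀ l) (c l) 0 := by
      have h3 := (hr5 0 (mem_ball_self hρ₂)).2.1
      rw [hc0] at h3
      exact h3
    have hC0 : 0 < C := by linarith
    refine ⟨min η₁ (η₂ / C), lt_min hη₁ (by positivity), B₂ * C, ?_, ?_⟩
    · nlinarith
    intro p w y r K hp hτ hcho hy0 hy hyw hr hK hBK hLip
    obtain ⟨-, hg2⟩ := hgeo p hp hτ (hcho.trans (min_le_left _ _))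
    have e1 : η₂ / C ≤ η₂ := div_le_self hη₂.le hC
    have e0 : 0 ≤ cho p (c₀ l, 1) := by
      rw [cho]
      positivity
    have e2 : ‖zc p - lc τ (c₀ l, 1)‖ ≤ η₂ := by
      refine hg2.trans ?_
      have h3 : C * cho p (c₀ l, 1) ≤ C * (η₂ / C) :=
        mul_le_mul_of_nonneg_left (hcho.trans (min_le_right _ _)) hC0.le
      rwa [mul_div_cancel₀ _ hC0.ne'] at h3
    have e3 : B₂ ≤ B₂ * C := le_mul_of_one_le_right (by linarith) hC
    have e4 : B₂ * K * r ≤ y ^ (m l + 1) := by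
      refine le_trans ?_ hBK
      exact mul_le_mul_of_nonneg_right (mul_le_mul_of_nonneg_right e3 (by linarith)) hr.le
    obtain ⟨q, q1, q2, q3, q4⟩ := hA (zc p) w y r K e2 hy0
      (hy.trans ((min_le_right _ _).trans e1)) (by rw [h00]; exact hyw) hr hK e4 hLip
    refine ⟨q, ?_, ?_, ?_, ?_⟩
    · refine q1.trans ?_
      rw [mul_assoc]
      apply mul_le_mul_of_nonneg_left _ (by linarith)
      have h3 : y ≤ C * y := le_mul_of_one_le_left hy0.le hC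
      linarith
    · exact q2.trans (mul_le_mul_of_nonneg_right e3 (norm_nonneg _))
    · intro s hs s' hs'
      refine (q3 s hs s' hs').trans ?_
      exact mul_le_mul_of_nonneg_right (mul_le_mul_of_nonneg_right e3 (by linarith))
        (norm_nonneg _)
    · intro s hs
      obtain ⟨s1, s2, s3, s4⟩ := q4 s hs
      obtain ⟨t1, t2, t3⟩ := (hr5 s s1).2.2 (q s) s2
      rw [hτ]
      refine ⟨fun h => s3 (t3 h), ?_⟩
      rw [s4] at t2
      exact t2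
  choose η₀ hη₀ B₀ hB₀ hmain using loc
  obtain ⟨η, hη, hηle⟩ := exists_pos_le η₀ hη₀
  obtain ⟨B, hB, hBle⟩ := exists_le B₀
  refine ⟨min ρ η, lt_min hFami.ρ0 hη, min_le_left _ _, B, hB, ?_⟩
  intro p l w y r K hp hcho hy0 hy hyw hr hK hBK hLip
  have e1 := hBle (l, tau p)
  have e2 := (min_le_right ρ η).trans (hηle (l, tau p))
  obtain ⟨q, q1, q2, q3, q4⟩ := hmain (l, tau p) p w y r K hp rfl (hcho.trans e2) hy0
    (hy.trans e2) hyw hr hK (by
      refine le_trans ?_ hBK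
      exact mul_le_mul_of_nonneg_right (mul_le_mul_of_nonneg_right e1 (by linarith)) hr.le) hLip
  refine ⟨q, ?_, ?_, ?_, q4⟩
  · refine q1.trans ?_
    apply mul_le_mul_of_nonneg_right e1
    have e0 : 0 ≤ cho p (c₀ l, 1) := by
      rw [cho]
      positivity
    simp only
    linarith
  · exact q2.trans (mul_le_mul_of_nonneg_right e1 (norm_nonneg _))
  · intro s hs s' hs'
    refine (q3 s hs s' hs').trans ?_
    exact mul_le_mul_of_nonneg_right (mul_le_mul_of_nonneg_right e1 (by linarith))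
      (norm_nonneg _)

end Pool.Agent.H740.BT207
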